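import Pool.Agent.H896Z.NC.Defs

namespace Pool.Agent.H896Z.NC

open Relation
open scoped ENNReal

variable {W : Type} (A : W → W → Prop) (m : ℕ)

/-- edges of the split graph -/
def edges : Set ((W × Bool) × (W × Bool)) :=
  {e | (e.1.2 = false ∧ e.2.2 = true ∧ e.1.1 = e.2.1) ∨
    (e.1.2 = true ∧ e.2.2 = false ∧ A e.1.1 e.2.1)}

/-- nodes between `u` and `v` -/
def btw (u v : W) : Set W := {w | ReflTransGen A u w ∧ ReflTransGen A w v}

/-- the demand pairs -/
def Pairs : Type := {p : W × W // m ≤ (btw A p.1 p.2).ncard}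

instance [Finite W] : Finite (Pairs A m) := by unfold Pairs; infer_instance

/-- enumeration of the pairs -/
noncomputable def pr [Finite W] (i : Fin (Nat.card (Pairs A m))) : W × W :=
  ((Finite.equivFin (Pairs A m)).symm i).1

/-- the network -/
noncomputable def net [Finite W] : Network (W × Bool) where
  E := edges A
  k := Nat.card (Pairs A m)
  s i := ((pr A m i).1, false)
  t i := ((pr A m i).2, true)

lemma pr_card [Finite W] (i : Fin (Nat.card (Pairs A m))) :
    m ≤ (btw A (pr A m i).1 (pr A m i).2).ncard :=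
  ((Finite.equivFin (Pairs A m)).symm i).2

lemma pr_surj [Finite W] (u v : W) (h : m ≤ (btw A u v).ncard) : ∃ i, pr A m i = (u, v) :=
  ⟨Finite.equivFin (Pairs A m) ⟨(u, v), h⟩, by simp [pr]⟩

/-- potential -/
def pot (ρ : W → ℕ) (v : W × Bool) : ℕ := 2 * ρ v.1 + (if v.2 then 1 else 0)

variable {A}

lemma pot_lt {ρ : W → ℕ} (hρ : ∀ u v, A u v → ρ u < ρ v) {a b : W × Bool}
    (h : (a, b) ∈ edges A) : pot ρ a < pot ρ b := by
  rcases a with ⟨u, β⟩
  rcases b with ⟨v, γ⟩
  rcases h with ⟨h1, h2, h3⟩ | ⟨h1, h2, h3⟩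
  · simp only at h1 h2 h3
    subst h1 h2 h3
    simp [pot]
  · simp only at h1 h2 h3
    subst h1 h2
    have := hρ _ _ h3
    simp [pot]; omega

lemma rank_le {ρ : W → ℕ} (hρ : ∀ u v, A u v → ρ u < ρ v) {u v : W}
    (h : ReflTransGen A u v) : ρ u ≤ ρ v := by
  induction h with
  | refl => exact le_rfl
  | tail _ h2 ih => exact ih.trans (hρ _ _ h2).le

lemma rank_lt {ρ : W → ℕ} (hρ : ∀ u v, A u v → ρ u < ρ v) {u v : W}
    (h : TransGen A u v) : ρ u < ρ v := by
  induction h with
  | single h => exact hρ _ _ h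
  | tail _ h2 ih => exact ih.trans (hρ _ _ h2)

lemma net_acyclic [Finite W] {ρ : W → ℕ} (hρ : ∀ u v, A u v → ρ u < ρ v) :
    (net A m).Acyclic := by
  intro v hv
  have : ∀ a b : W × Bool, TransGen (fun u w => (u, w) ∈ (net A m).E) a b →
      pot ρ a < pot ρ b := by
    intro a b h
    induction h with
    | single h => exact pot_lt hρ h
    | tail _ h2 ih => exact ih.trans (pot_lt hρ h2)
  exact lt_irrefl _ (this v v hv)

/-- a node between `u` and `v` is a bottleneck -/
lemma bottleneck {ρ : W → ℕ} (hρ : ∀ u v, A u v → ρ u < ρ v)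
    (hU : ∀ u u1 u2 v, A u u1 → A u u2 → ReflTransGen A u1 v → ReflTransGen A u2 v → u1 = u2)
    {w v : W} (hwv : ReflTransGen A w v) {a : W × Bool}
    (h : ReflTransGen (fun c d => (c, d) ∈ edges A ∧ (c, d) ≠ ((w, false), (w, true))) a
      (v, true)) :
    ReflTransGen A a.1 v ∧ (a.2 = false → ¬ ReflTransGen A a.1 w) ∧
      (a.2 = true → ¬ TransGen A a.1 w) := by
  induction h using ReflTransGen.head_induction_on with
  | refl =>
    refine ⟨ReflTransGen.refl, by simp, fun _ hvw => ?_⟩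
    have h1 := rank_le hρ hwv
    have h2 := rank_lt hρ hvw
    simp only at h2
    omega
  | head h1 _ ih =>
    rename_i c d _
    rcases c with ⟨u, β⟩
    rcases d with ⟨u1, γ⟩
    obtain ⟨h1, hne⟩ := h1
    obtain ⟨ih1, ih2, ih3⟩ := ih
    rcases h1 with ⟨e1, e2, e3⟩ | ⟨e1, e2, e3⟩
    · simp only at e1 e2 e3
      subst e1 e2 e3
      refine ⟨ih1, fun _ huw => ?_, by simp⟩
      rcases reflTransGen_iff_eq_or_transGen.1 huw with h | h
      · simp only at h
        subst h
        exact hne rfl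
      · exact ih3 rfl h
    · simp only at e1 e2 e3
      subst e1 e2
      refine ⟨ReflTransGen.head e3 ih1, by simp, fun _ huw => ?_⟩
      obtain ⟨u2, h2, h3⟩ := TransGen.head'_iff.1 huw
      have := hU _ _ _ _ e3 h2 ih1 (h3.trans hwv)
      subst this
      exact ih2 rfl h3

lemma sum_le [Finite W] {ρ : W → ℕ} (hρ : ∀ u v, A u v → ρ u < ρ v)
    (hU : ∀ u u1 u2 v, A u u1 → A u u2 → ReflTransGen A u1 v → ReflTransGen A u2 v → u1 = u2)
    {q b : ℕ} (hq : 2 ≤ q) {a : Fin (net A m).k → ℕ} (hs : (net A m).Solvable q b a) (w : W)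
    [DecidablePred fun i : Fin (net A m).k => w ∈ btw A ((net A m).s i).1 ((net A m).t i).1] :
    ∑ i with w ∈ btw A ((net A m).s i).1 ((net A m).t i).1, a i ≤ b := by
  obtain ⟨val, enc, dec, hval, hdec⟩ := hs
  set B : Fin (net A m).k → Prop := fun i => w ∈ btw A ((net A m).s i).1 ((net A m).t i).1 with hB
  set ew : (W × Bool) × (W × Bool) := ((w, false), (w, true)) with hew
  let Reach : W × Bool → Prop := fun v => ∃ j, B j ∧
    ReflTransGen (fun c d => (c, d) ∈ edges A ∧ (c, d) ≠ ew) ((net A m).s j) v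
  have key : ∀ x y : (i : Fin (net A m).k) → Fin (a i) → Fin q, (∀ i, ¬ B i → x i = y i) →
      val x ew = val y ew → ∀ i, B i → x i = y i := by
    intro x y hxy hw
    have c1 : ∀ n, ∀ e ∈ (net A m).E, pot ρ e.1 = n → (e = ew ∨ ¬ Reach e.1) →
        val x e = val y e := by
      intro n
      induction n using Nat.strong_induction_on with
      | _ n ih =>
        intro e he hn h
        rcases h with h | h
        · rw [h]; exact hw
        · rw [hval x e he, hval y e he]
          congr 1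
          · funext f
            obtain ⟨f, hf, hf2⟩ := f
            have hlt : pot ρ f.1 < pot ρ f.2 := pot_lt hρ hf
            refine ih (pot ρ f.1) (by rw [← hn, ← hf2]; exact hlt) f hf rfl ?_
            by_cases hfe : f = ew
            · exact Or.inl hfe
            · refine Or.inr fun ⟨j, hj, hr⟩ => h ⟨j, hj, ?_⟩
              rw [← hf2]
              exact hr.tail ⟨hf, hfe⟩
          · funext i
            refine hxy _ fun hi => h ⟨i.1, hi, ?_⟩
            rw [i.2]
    intro i hi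
    rw [← hdec x i, ← hdec y i]
    congr 1
    funext f
    obtain ⟨f, hf, hf2⟩ := f
    refine c1 _ f hf rfl ?_
    by_cases hfe : f = ew
    · exact Or.inl hfe
    · refine Or.inr fun ⟨j, hj, hr⟩ => ?_
      have hr2 : ReflTransGen (fun c d => (c, d) ∈ edges A ∧ (c, d) ≠ ew) ((net A m).s j)
          ((pr A m i).2, true) := by
        have : f.2 = ((pr A m i).2, true) := hf2
        rw [← this]
        exact hr.tail ⟨hf, hfe⟩
      exact (bottleneck hρ hU hi.2 hr2).2.1 rfl hj.1
  let ext : ((i : {i // B i}) → Fin (a i.1) → Fin q) → (i : Fin (net A m).k) → Fin (a i) → Fin q :=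
    fun z i => if h : B i then z ⟨i, h⟩ else fun _ => ⟨0, by omega⟩
  have hinj : Function.Injective fun z => val (ext z) ew := by
    intro z z' h
    have := key (ext z) (ext z') (fun i hi => by simp [ext, hi]) h
    funext i
    have h2 := this i.1 i.2
    simpa [ext, i.2] using h2
  have hc := Fintype.card_le_of_injective _ hinj
  simp only [Fintype.card_pi, Fintype.card_fin, Finset.prod_const, Finset.card_univ,
    Finset.prod_pow_eq_pow_sum] at hc
  have h2 := (Nat.pow_le_pow_iff_right (by omega : 1 < q)).1 hc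
  rwa [Finset.sum_subtype (p := B) _ (by simp [hB])]

lemma R_le [Finite W] {ρ : W → ℕ} (hρ : ∀ u v, A u v → ρ u < ρ v)
    (hU : ∀ u u1 u2 v, A u u1 → A u u2 → ReflTransGen A u1 v → ReflTransGen A u2 v → u1 = u2)
    (c : ℕ) (hm : 0 < m) (hc : Nat.card W ≤ m * c) : (net A m).R ≤ c := by
  classical
  have := Fintype.ofFinite W
  unfold Network.R
  refine iSup_le fun q => iSup_le fun hq => iSup_le fun b => iSup_le fun hb =>
    iSup_le fun a => iSup_le fun hs => ?_
  have h1 : ∑ w : W, ∑ i with w ∈ btw A ((net A m).s i).1 ((net A m).t i).1, a i ≤ Nat.card W * b := by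
    calc _ ≤ ∑ _w : W, b := Finset.sum_le_sum fun w _ => sum_le m hρ hU hq hs w
      _ = _ := by simp
  have h2 : m * ∑ i, a i ≤ ∑ w : W, ∑ i with w ∈ btw A ((net A m).s i).1 ((net A m).t i).1, a i := by
    simp only [Finset.sum_filter]
    rw [Finset.sum_comm, Finset.mul_sum]
    refine Finset.sum_le_sum fun i _ => ?_
    rw [← Finset.sum_filter, Finset.sum_const, smul_eq_mul]
    refine Nat.mul_le_mul_right _ ?_
    have h0 : m ≤ (btw A ((net A m).s i).1 ((net A m).t i).1).ncard := pr_card A m i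
    rw [Set.ncard_eq_toFinset_card'] at h0
    refine h0.trans (le_of_eq ?_)
    congr 1
    ext z
    simp
  have h3 : ∑ i, a i ≤ c * b := by
    have : m * ∑ i, a i ≤ m * (c * b) := by
      calc _ ≤ Nat.card W * b := h2.trans h1
        _ ≤ m * c * b := Nat.mul_le_mul_right _ hc
        _ = _ := by ring
    exact Nat.le_of_mul_le_mul_left this hm
  refine ENNReal.div_le_of_le_mul ?_
  exact_mod_cast h3

/-- ends of paths with `l + 1` nodes inside `T` -/
def lev (A : W → W → Prop) (T : Set W) : ℕ → Set W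
  | 0 => T
  | l + 1 => {v | v ∈ T ∧ ∃ u ∈ lev A T l, A u v}

lemma MC_ge [Finite W] {ρ : W → ℕ} (hρ : ∀ u v, A u v → ρ u < ρ v) (c d : ℕ)
    (hT : ∀ T : Set W, lev A T m = ∅ → T.ncard ≤ d) (hc : c + d ≤ Nat.card W) :
    (c : ℕ∞) ≤ (net A (m + 1)).MC := by
  unfold Network.MC
  refine le_iInf fun M => le_iInf fun hM => ?_
  set T : Set W := {u | ∀ e ∈ M, e.1.1 ≠ u} with hTd
  have h1 : ∀ l, ∀ v ∈ lev A T l, ∃ u, ReflTransGen (fun c d => (c, d) ∈ edges A \ M) (u, false)
      (v, true) ∧ ReflTransGen A u v ∧ l + 1 ≤ (btw A u v).ncard := by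
    intro l
    induction l with
    | zero =>
      intro v hv
      refine ⟨v, ReflTransGen.single ⟨Or.inl ⟨rfl, rfl, rfl⟩, fun h => hv _ h rfl⟩,
        ReflTransGen.refl, ?_⟩
      exact (Set.ncard_pos (Set.toFinite _)).2 ⟨v, ReflTransGen.refl, ReflTransGen.refl⟩
    | succ l ih =>
      rintro v ⟨hv, v0, hv0, hA⟩
      obtain ⟨u, hu1, hu2, hu3⟩ := ih v0 hv0
      have hv0T : v0 ∈ T := by
        cases l with
        | zero => exact hv0
        | succ l => exact hv0.1
      refine ⟨u, (hu1.tail (c := (v, false)) ⟨Or.inr ⟨rfl, rfl, hA⟩, fun h => hv0T _ h rfl⟩).tail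
        ⟨Or.inl ⟨rfl, rfl, rfl⟩, fun h => hv _ h rfl⟩, hu2.tail hA, ?_⟩
      have hlt : (btw A u v0).ncard < (btw A u v).ncard := by
        refine Set.ncard_lt_ncard ⟨fun z hz => ⟨hz.1, hz.2.tail hA⟩, fun hsub => ?_⟩
          (Set.toFinite _)
        have h3 : v ∈ btw A u v0 := hsub ⟨hu2.tail hA, ReflTransGen.refl⟩
        have h4 := rank_le hρ h3.2
        have h5 := hρ _ _ hA
        omega
      omega
  have h2 : lev A T m = ∅ := by
    by_contra hne
    obtain ⟨v, hv⟩ := Set.nonempty_iff_ne_empty.2 hne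
    obtain ⟨u, hu1, -, hu3⟩ := h1 m v hv
    obtain ⟨i, hi⟩ := pr_surj A (m + 1) u v hu3
    refine hM.2 i ?_
    show ReflTransGen _ ((pr A (m + 1) i).1, false) ((pr A (m + 1) i).2, true)
    rw [hi]
    exact hu1
  have h3 := hT T h2
  have h4 : Tᶜ.ncard ≤ M.ncard := by
    refine le_trans (Set.ncard_le_ncard (t := (fun e => e.1.1) '' M) ?_ (Set.toFinite _))
      (Set.ncard_image_le (Set.toFinite _))
    intro u hu
    simp only [hTd, Set.mem_compl_iff, Set.mem_ofPred_eq, not_forall, not_not] at hu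
    obtain ⟨e, he, h⟩ := hu
    exact ⟨e, he, h⟩
  have h5 := Set.ncard_add_ncard_compl T
  have h6 : c ≤ M.ncard := by omega
  rw [← (Set.toFinite M).cast_ncard_eq]
  exact_mod_cast h6

end Pool.Agent.H896Z.NC
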