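import Mathlib

/-!
# Multiple-unicast networks, multicuts and network codes
-/

namespace Pool.Agent.H896Z.NC

open scoped ENNReal

/-- A multiple-unicast network on the vertex type `V`: a set `E` of directed edges (each of
capacity one) and `k` source-sink pairs `(s i, t i)`. -/
structure Network (V : Type) where
  /-- the directed edges `(tail, head)` -/
  E : Set (V × V)
  /-- the number of pairs -/
  k : ℕ
  /-- the sources -/
  s : Fin k → V
  /-- the sinks -/
  t : Fin k → V

variable {V : Type}

/-- The directed graph of `N` has no directed cycle. -/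
def Network.Acyclic (N : Network V) : Prop :=
  ∀ v : V, ¬ Relation.TransGen (fun u w => (u, w) ∈ N.E) v v

/-- `M ⊆ E` is a multicut: `G - M` has no directed path from `s i` to `t i`, for any `i`. -/
def Network.IsMulticut (N : Network V) (M : Set (V × V)) : Prop :=
  M ⊆ N.E ∧ ∀ i, ¬ Relation.ReflTransGen (fun u w => (u, w) ∈ N.E \ M) (N.s i) (N.t i)

/-- The minimum size of a multicut. -/
noncomputable def Network.MC (N : Network V) : ℕ∞ :=
  ⨅ (M : Set (V × V)) (_ : N.IsMulticut M), M.encard

/-- The edges entering the vertex `v`. -/
def Network.InEdge (N : Network V) (v : V) : Type := {e : V × V // e ∈ N.E ∧ e.2 = v}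

/-- There is a network code over the alphabet `Fin q`, with block length `b` and message lengths
`a i`, that is a solution. For a tuple `x` of messages, `val x e` is the word of length `b` on the
edge `e`. It is computed by a local encoder `enc e` from the words on the edges entering the tail
of `e` and the messages held at the tail, and the sink `t i` recovers `x i` by a decoder `dec i`
from the words on its incoming edges. -/
def Network.Solvable (N : Network V) (q b : ℕ) (a : Fin N.k → ℕ) : Prop :=
  ∃ (val : ((i : Fin N.k) → Fin (a i) → Fin q) → V × V → Fin b → Fin q)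
    (enc : (e : V × V) → (N.InEdge e.1 → Fin b → Fin q) →
      ((i : {i : Fin N.k // N.s i = e.1}) → Fin (a i.1) → Fin q) → Fin b → Fin q)
    (dec : (i : Fin N.k) → (N.InEdge (N.t i) → Fin b → Fin q) → Fin (a i) → Fin q),
    (∀ x, ∀ e ∈ N.E, val x e = enc e (fun f => val x f.1) (fun i => x i.1)) ∧
    (∀ x i, dec i (fun f => val x f.1) = x i)

/-- The network coding rate: the supremum of the total rates `(∑ i, a i) / b` of all solutions,
over all alphabets with at least two letters and all block lengths `b ≥ 1`. -/
noncomputable def Network.R (N : Network V) : ℝ≥0∞ :=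
  ⨆ (q : ℕ) (_ : 2 ≤ q) (b : ℕ) (_ : 1 ≤ b) (a : Fin N.k → ℕ) (_ : N.Solvable q b a),
    ((∑ i, a i : ℕ) : ℝ≥0∞) / (b : ℝ≥0∞)

end Pool.Agent.H896Z.NC
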