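import Pool.Agent.H896Z.NC.Abs

namespace Pool.Agent.H896Z.NC

open Relation
open scoped ENNReal

/-- labels -/
abbrev Lab (r q : ℕ) := Fin r × Fin r → Fin q

/-- arcs of the Hamming lift of the transitive tournament -/
def arc (r q : ℕ) (u v : Fin r × Lab r q) : Prop :=
  u.1 < v.1 ∧ u.2 (u.1, v.1) ≠ v.2 (u.1, v.1) ∧ ∀ p, p ≠ (u.1, v.1) → u.2 p = v.2 p

variable {r q : ℕ}

lemma arc_rank (u v : Fin r × Lab r q) (h : arc r q u v) : (u.1 : ℕ) < v.1 := h.1

lemma reach_agree {u v : Fin r × Lab r q} (h : ReflTransGen (arc r q) u v) :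
    ∀ p : Fin r × Fin r, p.1 < u.1 → u.2 p = v.2 p := by
  induction h using ReflTransGen.head_induction_on with
  | refl => intro p _; rfl
  | head h1 _ ih =>
    intro p hp
    rw [← ih p (hp.trans h1.1)]
    refine h1.2.2 p ?_
    rintro rfl
    exact lt_irrefl _ hp

lemma arc_unique (u u1 u2 v : Fin r × Lab r q) (h1 : arc r q u u1) (h2 : arc r q u u2)
    (h3 : ReflTransGen (arc r q) u1 v) (h4 : ReflTransGen (arc r q) u2 v) : u1 = u2 := by
  have e1 : ∀ j, u1.2 (u.1, j) = v.2 (u.1, j) := fun j => reach_agree h3 _ h1.1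
  have e2 : ∀ j, u2.2 (u.1, j) = v.2 (u.1, j) := fun j => reach_agree h4 _ h2.1
  have hj : u1.1 = u2.1 := by
    by_contra hne
    apply h1.2.1
    rw [e1, ← e2]
    exact h2.2.2 _ (by simpa using hne)
  refine Prod.ext hj (funext fun p => ?_)
  by_cases hp : p = (u.1, u1.1)
  · rw [hp, e1, e2]
  · rw [← h1.2.2 p hp, ← h2.2.2 p (by rwa [← hj])]

/-- points of `S` alone on their line in direction `p` -/
def lonely (S : Set (Lab r q)) (p : Fin r × Fin r) : Set (Lab r q) :=
  {x | x ∈ S ∧ ∀ y ∈ S, (∀ p', p' ≠ p → y p' = x p') → y = x}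

lemma lonely_card (S : Set (Lab r q)) (p : Fin r × Fin r) :
    (lonely S p).ncard * q ≤ Nat.card (Lab r q) := by
  have hinj : Function.Injective fun z : lonely S p × Fin q => Function.update z.1.1 p z.2 := by
    rintro ⟨⟨x, hx⟩, t⟩ ⟨⟨y, hy⟩, s⟩ h
    simp only at h
    have h1 : t = s := by simpa using congrFun h p
    have h2 : x = y := by
      refine hy.2 x hx.1 fun p' hp' => ?_
      simpa [Function.update_of_ne hp'] using congrFun h p'
    subst h1 h2
    rfl
  have := Nat.card_le_card_of_injective _ hinj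
  simpa [Nat.card_prod, Nat.card_coe_set_eq] using this

lemma T_bound (m : ℕ) (hq : 0 < q) (hqm : r * (m * (r * r)) ≤ q) (T : Set (Fin r × Lab r q))
    (hT : lev (arc r q) T m = ∅) : T.ncard ≤ (m + 1) * Nat.card (Lab r q) := by
  classical
  set X := Nat.card (Lab r q) with hX
  let L : Fin m × Fin r × Fin r → Set (Lab r q) := fun z =>
    lonely {x | (z.2.1, x) ∈ lev (arc r q) T z.1} z.2
  let Bad : Finset (Lab r q) := Finset.univ.biUnion fun z => (L z).toFinset
  have hBad : Bad.card * q ≤ m * (r * r) * X := by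
    calc Bad.card * q ≤ (∑ z, (L z).toFinset.card) * q :=
          Nat.mul_le_mul_right _ Finset.card_biUnion_le
      _ = ∑ z, (L z).ncard * q := by
          rw [Finset.sum_mul]
          refine Finset.sum_congr rfl fun z _ => ?_
          rw [Set.ncard_eq_toFinset_card']
      _ ≤ ∑ _z : Fin m × Fin r × Fin r, X := Finset.sum_le_sum fun z _ => lonely_card _ _
      _ = _ := by simp
  have hBad2 : r * Bad.card ≤ X := by
    have : q * (r * Bad.card) ≤ q * X := by
      calc q * (r * Bad.card) = r * (Bad.card * q) := by ring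
        _ ≤ r * (m * (r * r) * X) := Nat.mul_le_mul_left _ hBad
        _ = (r * (m * (r * r))) * X := by ring
        _ ≤ q * X := Nat.mul_le_mul_right _ hqm
    exact Nat.le_of_mul_le_mul_left this hq
  let Ax : Lab r q → Finset (Fin r) := fun x => Finset.univ.filter fun i => (i, x) ∈ T
  have hgood : ∀ x, x ∉ Bad → (Ax x).card ≤ m := by
    intro x hx
    have claim : ∀ l, l ≤ m → ∀ j ∈ Ax x, l ≤ ((Ax x).filter fun i => i < j).card →
        (j, x) ∈ lev (arc r q) T l := by
      intro l
      induction l with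
      | zero => intro _ j hj _; simpa [Ax, lev] using hj
      | succ l ih =>
        intro hl j hj hc
        have hne : ((Ax x).filter fun i => i < j).Nonempty := by
          rw [← Finset.card_pos]; omega
        set i := ((Ax x).filter fun i => i < j).max' hne with hi
        have hi1 := Finset.max'_mem _ hne
        rw [← hi, Finset.mem_filter] at hi1
        have hi2 : l ≤ ((Ax x).filter fun i' => i' < i).card := by
          have : ((Ax x).filter fun i => i < j) ⊆ insert i ((Ax x).filter fun i' => i' < i) := by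
            intro a ha
            have h1 : a ≤ i := Finset.le_max' _ _ ha
            rcases h1.lt_or_eq with h | h
            · exact Finset.mem_insert_of_mem
                (Finset.mem_filter.2 ⟨(Finset.mem_filter.1 ha).1, h⟩)
            · rw [h]; exact Finset.mem_insert_self _ _
          have h2 := (Finset.card_le_card this).trans (Finset.card_insert_le _ _)
          omega
        have h3 := ih (by omega) i hi1.1 hi2
        have h4 : x ∉ L (⟨l, by omega⟩, i, j) := fun h =>
          hx (Finset.mem_biUnion.2 ⟨_, Finset.mem_univ _, Set.mem_toFinset.2 h⟩)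
        have h5 : ∃ y, (i, y) ∈ lev (arc r q) T l ∧ (∀ p', p' ≠ (i, j) → y p' = x p') ∧ y ≠ x := by
          by_contra hcon
          push Not at hcon
          exact h4 ⟨h3, fun y hy hy2 => hcon y hy hy2⟩
        obtain ⟨y, hy1, hy2, hy3⟩ := h5
        refine ⟨by simpa [Ax] using hj, (i, y), hy1, hi1.2, fun h => hy3 ?_, hy2⟩
        funext p
        by_cases hp : p = (i, j)
        · rw [hp]; exact h
        · exact hy2 p hp
    by_contra hcon
    have hne : (Ax x).Nonempty := by rw [← Finset.card_pos]; omega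
    have hj := Finset.max'_mem _ hne
    have h1 := claim m le_rfl _ hj (by
      have : Ax x ⊆ insert ((Ax x).max' hne) ((Ax x).filter fun i => i < (Ax x).max' hne) := by
        intro a ha
        rcases (Finset.le_max' _ _ ha).lt_or_eq with h | h
        · exact Finset.mem_insert_of_mem (Finset.mem_filter.2 ⟨ha, h⟩)
        · rw [h]; exact Finset.mem_insert_self _ _
      have h2 := (Finset.card_le_card this).trans (Finset.card_insert_le _ _)
      omega)
    rw [hT] at h1
    exact h1
  have hsum : T.ncard = ∑ x, (Ax x).card := by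
    rw [Set.ncard_eq_toFinset_card', Finset.card_eq_sum_card_fiberwise
      (f := fun z : Fin r × Lab r q => z.2) (t := Finset.univ) (by simp)]
    refine Finset.sum_congr rfl fun x _ => ?_
    refine Finset.card_bij (fun z _ => z.1) ?_ ?_ ?_
    · rintro ⟨i, y⟩ h
      simp only [Finset.mem_filter, Set.mem_toFinset] at h
      obtain ⟨h1, rfl⟩ := h
      simpa [Ax] using h1
    · rintro ⟨i, y⟩ h ⟨i', y'⟩ h' e
      simp only [Finset.mem_filter, Set.mem_toFinset] at h h' e
      rw [e, h.2, h'.2]
    · intro i hi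
      exact ⟨(i, x), by simpa [Ax] using hi, rfl⟩
  have hsum2 : ∑ x, (Ax x).card ≤ ∑ x : Lab r q, (m + if x ∈ Bad then r else 0) := by
    refine Finset.sum_le_sum fun x _ => ?_
    split_ifs with h
    · have : (Ax x).card ≤ r := by simpa using Finset.card_le_univ (Ax x)
      omega
    · simpa using hgood x h
  have hsum3 : ∑ x : Lab r q, (m + if x ∈ Bad then r else 0) = m * X + r * Bad.card := by
    rw [Finset.sum_add_distrib, ← Finset.sum_filter]
    simp [hX, mul_comm]
  rw [hsum]
  nlinarith

theorem main (C : ℕ) : ∃ (V : Type) (_ : Finite V) (N : Network V),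
    N.Acyclic ∧ (∀ i, N.s i ≠ N.t i) ∧ (C : ℝ≥0∞) * N.R < (N.MC : ℝ≥0∞) := by
  set m := 2 * C with hm
  set r := 2 * (m + 1) with hr
  set q := r * (m * (r * r)) + 1 with hq
  set X := Nat.card (Lab r q) with hX
  have hXpos : 0 < X := Nat.card_pos
  have hW : Nat.card (Fin r × Lab r q) = r * X := by simp [hX]
  refine ⟨(Fin r × Lab r q) × Bool, inferInstance, net (arc r q) (m + 1),
    net_acyclic _ arc_rank, fun i h => by simpa [net] using congrArg Prod.snd h, ?_⟩
  have h1 := R_le (m + 1) (arc_rank (r := r) (q := q)) arc_unique (2 * X) (by omega)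
    (by rw [hW, hr]; nlinarith)
  have h2 := MC_ge m (arc_rank (r := r) (q := q)) ((m + 1) * X) ((m + 1) * X)
    (T_bound m (by omega) (by omega)) (by rw [hW, hr]; nlinarith)
  calc (C : ℝ≥0∞) * (net (arc r q) (m + 1)).R ≤ C * ((2 * X : ℕ) : ℝ≥0∞) := by gcongr
    _ = ((C * (2 * X) : ℕ) : ℝ≥0∞) := by push_cast; ring
    _ < (((m + 1) * X : ℕ) : ℝ≥0∞) := by
        have : C * (2 * X) < (m + 1) * X := by rw [hm]; nlinarith
        exact_mod_cast this
    _ ≤ _ := by
        have := ENat.toENNReal_le.2 h2
        simpa using this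

end Pool.Agent.H896Z.NC
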